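import Mathlib

/-!
# MP_04143b_an : `1/3 ≤ c₆ ≤ 1/2`

Best Hausdorff approximation (box metric) of plane curves of length at most one by curves whose two
coordinate functions have at most `n` sections of monotonicity.
-/

namespace Pool.Agent.Results.MP_04143b_an.TwoSidedBound

open Set Filter Topology

/-- `f` has at most `n` sections of monotonicity on `[a,b]`. -/
def Sections (n : ℕ) (a b : ℝ) (f : ℝ → ℝ) : Prop :=
  ∃ k : ℕ, k ≤ n ∧ ∃ t : ℕ → ℝ, t 0 = a ∧ t k = b ∧ (∀ i < k, t i < t (i + 1)) ∧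
    ∀ i < k, MonotoneOn f (Icc (t i) (t (i + 1))) ∨ AntitoneOn f (Icc (t i) (t (i + 1)))

/-- The family `M_n²` of plane curves, as sets in `ℝ × ℝ`. -/
def MSq (n : ℕ) : Set (Set (ℝ × ℝ)) :=
  {γ | ∃ φ ψ : ℝ → ℝ, ContinuousOn φ (Icc 0 1) ∧ ContinuousOn ψ (Icc 0 1) ∧
    Sections n 0 1 φ ∧ Sections n 0 1 ψ ∧ γ = (fun t => (φ t, ψ t)) '' Icc (0 : ℝ) 1}

/-- The path `g` on `[0,1]` has Euclidean length at most `L`: all inscribed polygons have. -/
def LengthLE (g : ℝ → ℝ × ℝ) (L : ℝ) : Prop :=
  ∀ (m : ℕ) (t : ℕ → ℝ), Monotone t → (∀ i, t i ∈ Icc (0 : ℝ) 1) →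
    ∑ i ∈ Finset.range m, √(((g (t (i + 1))).1 - (g (t i)).1) ^ 2
      + ((g (t (i + 1))).2 - (g (t i)).2) ^ 2) ≤ L

/-- `Γ₁`: plane curves of length at most one, as point sets. -/
def Gamma1 : Set (Set (ℝ × ℝ)) :=
  {F | ∃ g : ℝ → ℝ × ℝ, ContinuousOn g (Icc 0 1) ∧ LengthLE g 1 ∧ F = g '' Icc (0 : ℝ) 1}

/-- `E(M_n²; F)`; the metric of `ℝ × ℝ` is the box metric, so `Metric.hausdorffDist` is `r`. -/
noncomputable def errorOf (n : ℕ) (F : Set (ℝ × ℝ)) : ℝ :=
  sInf ((fun γ => Metric.hausdorffDist F γ) '' MSq n)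

/-- `E(M_n²; Γ₁)`. -/
noncomputable def errorClass (n : ℕ) : ℝ := sSup (errorOf n '' Gamma1)

/-- `c₆`. -/
noncomputable def c6 : ℝ := limsup (fun n : ℕ => (n : ℝ) * errorClass n) atTop

/-! ### Counting sections -/

lemma alt_count (f : ℝ → ℝ) (H l : ℝ) (hlH : l < H) : ∀ (k : ℕ) (t : ℕ → ℝ),
    (∀ i < k, t i < t (i + 1)) →
    (∀ i < k, MonotoneOn f (Icc (t i) (t (i + 1))) ∨ AntitoneOn f (Icc (t i) (t (i + 1)))) →
    ∀ (m : ℕ) (s : ℕ → ℝ) (c : ℕ), (∀ i < m, s i ∈ Icc (t 0) (t k)) →
    (∀ i, i + 1 < m → s i ≤ s (i + 1)) →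
    (∀ i < m, ((i + c) % 2 = 0 → H ≤ f (s i)) ∧ ((i + c) % 2 = 1 → f (s i) ≤ l)) → m ≤ k + 1 := by
  intro k
  induction k with
  | zero =>
    intro t _ _ m s c hs _ hf
    by_contra hm
    have h0 := hs 0 (by omega)
    have h1 := hs 1 (by omega)
    have e0 : s 0 = t 0 := le_antisymm h0.2 h0.1
    have e1 : s 1 = t 0 := le_antisymm h1.2 h1.1
    have f0 := hf 0 (by omega)
    have f1 := hf 1 (by omega)
    rw [e0] at f0
    rw [e1] at f1
    rcases Nat.mod_two_eq_zero_or_one c with hc | hc
    · linarith [f0.1 (by omega), f1.2 (by omega)]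
    · linarith [f0.2 (by omega), f1.1 (by omega)]
  | succ k ih =>
    intro t ht hmono m s c hs hsm hf
    by_contra hm
    have hmk : k + 2 < m := by omega
    -- no three consecutive points in the first section
    have ht01 : t 0 ≤ t 1 := (ht 0 (by omega)).le
    have hthree : ∀ i, i + 2 < m → t 1 ≤ s (i + 2) := by
      intro i hi
      by_contra hlt
      push Not at hlt
      have a1 := hsm i (by omega)
      have a2 := hsm (i + 1) (by omega)
      have m0 : s i ∈ Icc (t 0) (t (0 + 1)) :=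
        ⟨(hs i (by omega)).1, by simp only [zero_add]; linarith⟩
      have m1 : s (i + 1) ∈ Icc (t 0) (t (0 + 1)) :=
        ⟨(hs (i + 1) (by omega)).1, by simp only [zero_add]; linarith⟩
      have m2 : s (i + 2) ∈ Icc (t 0) (t (0 + 1)) :=
        ⟨(hs (i + 2) (by omega)).1, by simp only [zero_add]; linarith⟩
      have f0 := hf i (by omega)
      have f1 := hf (i + 1) (by omega)
      have f2 := hf (i + 2) (by omega)
      rcases hmono 0 (by omega) with hM | hA
      · have b1 := hM m0 m1 a1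
        have b2 := hM m1 m2 a2
        rcases Nat.mod_two_eq_zero_or_one (i + c) with hc | hc
        · linarith [f0.1 (by omega), f1.2 (by omega)]
        · linarith [f1.1 (by omega), f2.2 (by omega)]
      · have b1 := hA m0 m1 a1
        have b2 := hA m1 m2 a2
        rcases Nat.mod_two_eq_zero_or_one (i + c) with hc | hc
        · linarith [f1.2 (by omega), f2.1 (by omega)]
        · linarith [f0.2 (by omega), f1.1 (by omega)]
    have key := ih (fun i => t (i + 1)) (fun i hi => ht (i + 1) (by omega))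
      (fun i hi => hmono (i + 1) (by omega)) (m - 1) (fun i => max (s (i + 1)) (t 1)) (c + 1)
      ?_ ?_ ?_
    · omega
    · intro i hi
      refine ⟨le_max_right _ _, max_le (hs (i + 1) (by omega)).2 ?_⟩
      -- t 1 ≤ t (k+1)
      have hmon : ∀ j, j ≤ k → t 1 ≤ t (j + 1) := by
        intro j
        induction j with
        | zero => intro _; exact le_rfl
        | succ j ihj => intro hj; exact (ihj (by omega)).trans (ht (j + 1) (by omega)).le
      exact hmon k le_rfl
    · intro i hi
      exact max_le_max (hsm (i + 1) (by omega)) le_rfl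
    · intro i hi
      have fi := hf (i + 1) (by omega)
      rcases le_or_gt (t 1) (s (i + 1)) with h | h
      · simp only [max_eq_left h]
        exact ⟨fun h2 => fi.1 (by omega), fun h2 => fi.2 (by omega)⟩
      · simp only [max_eq_right h.le]
        rcases i with _ | i
        · -- s 0, s 1 in the first section
          have a1 := hsm 0 (by omega)
          simp only [zero_add] at *
          have m0 : s 0 ∈ Icc (t 0) (t (0 + 1)) :=
            ⟨(hs 0 (by omega)).1, by simp only [zero_add]; linarith⟩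
          have m1 : s 1 ∈ Icc (t 0) (t (0 + 1)) :=
            ⟨(hs 1 (by omega)).1, by simp only [zero_add]; linarith⟩
          have m2 : t 1 ∈ Icc (t 0) (t (0 + 1)) := ⟨ht01, by simp⟩
          have f0 := hf 0 (by omega)
          rcases hmono 0 (by omega) with hM | hA
          · have b1 := hM m0 m1 a1
            have b2 := hM m1 m2 h.le
            rcases Nat.mod_two_eq_zero_or_one c with hc | hc
            · exact absurd (f0.1 (by omega)) (by linarith [fi.2 (by omega)])
            · exact ⟨fun _ => by linarith [fi.1 (by omega)], fun h2 => by omega⟩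
          · have b1 := hA m0 m1 a1
            have b2 := hA m1 m2 h.le
            rcases Nat.mod_two_eq_zero_or_one c with hc | hc
            · exact ⟨fun h2 => by omega, fun _ => by linarith [fi.2 (by omega)]⟩
            · exact absurd (fi.1 (by omega)) (by linarith [f0.2 (by omega)])
        · exact absurd (hthree i (by omega)) (not_le.mpr h)

lemma sections_alt {n : ℕ} {f : ℝ → ℝ} (hf : Sections n 0 1 f) (H l : ℝ) (hlH : l < H)
    (m : ℕ) (s : ℕ → ℝ) (hs : ∀ i < m, s i ∈ Icc (0 : ℝ) 1) (hsm : ∀ i, i + 1 < m → s i ≤ s (i + 1))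
    (hval : ∀ i < m, (i % 2 = 0 → H ≤ f (s i)) ∧ (i % 2 = 1 → f (s i) ≤ l)) : m ≤ n + 1 := by
  obtain ⟨k, hk, t, ht0, htk, ht, hmono⟩ := hf
  have := alt_count f H l hlH k t ht hmono m s 0 (by rw [ht0, htk]; exact hs) hsm
    (by simpa using hval)
  omega

/-! ### The comb -/

/-- `F` is the image of a path of `ℓ¹`-speed at most one on `[0,L]`, from `a` to `b`. -/
def Rect (L : ℝ) (a b : ℝ × ℝ) (F : Set (ℝ × ℝ)) : Prop :=
  0 ≤ L ∧ ∃ g : ℝ → ℝ × ℝ,
    (∀ s ∈ Icc (0 : ℝ) L, ∀ t ∈ Icc (0 : ℝ) L, s ≤ t →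
      |(g t).1 - (g s).1| + |(g t).2 - (g s).2| ≤ t - s) ∧
    g 0 = a ∧ g L = b ∧ F = g '' Icc (0 : ℝ) L

lemma rect_concat {L₁ L₂ : ℝ} {a b c : ℝ × ℝ} {F G : Set (ℝ × ℝ)} (h₁ : Rect L₁ a b F)
    (h₂ : Rect L₂ b c G) : Rect (L₁ + L₂) a c (F ∪ G) := by
  obtain ⟨hL1, g, hg, hga, hgb, hF⟩ := h₁
  obtain ⟨hL2, h, hh, hhb, hhc, hG⟩ := h₂
  refine ⟨by linarith, fun t => if t ≤ L₁ then g t else h (t - L₁), ?_, ?_, ?_, ?_⟩
  · intro s hs t ht hst
    by_cases h1 : t ≤ L₁
    · have h2 : s ≤ L₁ := hst.trans h1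
      simp only [h1, h2, if_true]
      exact hg s ⟨hs.1, h2⟩ t ⟨ht.1, h1⟩ hst
    · push Not at h1
      by_cases h2 : s ≤ L₁
      · simp only [h2, not_le.mpr h1, if_true, if_false]
        have k1 := hg s ⟨hs.1, h2⟩ L₁ ⟨hL1, le_rfl⟩ h2
        have k2 := hh 0 ⟨le_rfl, hL2⟩ (t - L₁) ⟨by linarith, by linarith [ht.2]⟩ (by linarith)
        rw [hgb] at k1
        rw [hhb] at k2
        have t1 := abs_sub_le (h (t - L₁)).1 b.1 (g s).1
        have t2 := abs_sub_le (h (t - L₁)).2 b.2 (g s).2
        linarith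
      · push Not at h2
        simp only [not_le.mpr h1, not_le.mpr h2, if_false]
        have := hh (s - L₁) ⟨by linarith, by linarith [hs.2]⟩ (t - L₁)
          ⟨by linarith, by linarith [ht.2]⟩ (by linarith)
        linarith
  · simp only [hL1, if_true, hga]
  · by_cases h1 : L₁ + L₂ ≤ L₁
    · have : L₂ = 0 := by linarith
      subst this
      simp only [add_zero, le_refl, if_true, hgb]
      rw [← hhb, hhc]
    · simp only [h1, if_false, add_sub_cancel_left, hhc]
  · rw [hF, hG]
    ext p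
    constructor
    · rintro (⟨t, ht, rfl⟩ | ⟨t, ht, rfl⟩)
      · exact ⟨t, ⟨ht.1, by linarith [ht.2]⟩, by simp only [ht.2, if_true]⟩
      · by_cases h0 : t = 0
        · subst h0
          exact ⟨L₁, ⟨hL1, by linarith⟩, by simp only [le_refl, if_true, hgb, hhb]⟩
        · refine ⟨t + L₁, ⟨by linarith [ht.1], by linarith [ht.2]⟩, ?_⟩
          have : ¬ (t + L₁ ≤ L₁) := by
            have : 0 < t := lt_of_le_of_ne ht.1 (Ne.symm h0)
            linarith
          simp only [this, if_false, add_sub_cancel_right]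
    · rintro ⟨t, ht, rfl⟩
      by_cases h1 : t ≤ L₁
      · left
        exact ⟨t, ⟨ht.1, h1⟩, by simp only [h1, if_true]⟩
      · right
        push Not at h1
        exact ⟨t - L₁, ⟨by linarith, by linarith [ht.2]⟩, by simp only [not_le.mpr h1, if_false]⟩

lemma rect_up (x h : ℝ) (hh : 0 ≤ h) :
    Rect h (x, 0) (x, h) ((fun t => (x, t)) '' Icc (0 : ℝ) h) := by
  refine ⟨hh, fun t => (x, t), ?_, rfl, rfl, rfl⟩
  intro s _ t _ hst
  simp only [sub_self, abs_zero, zero_add]
  rw [abs_of_nonneg (by linarith)]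

lemma rect_down (x h : ℝ) (hh : 0 ≤ h) :
    Rect h (x, h) (x, 0) ((fun t => (x, h - t)) '' Icc (0 : ℝ) h) := by
  refine ⟨hh, fun t => (x, h - t), ?_, by simp, by simp, rfl⟩
  intro s _ t _ hst
  simp only [sub_self, abs_zero, zero_add]
  rw [abs_of_nonpos (by linarith)]
  linarith

lemma rect_right (x h : ℝ) (hh : 0 ≤ h) :
    Rect h (x, 0) (x + h, 0) ((fun t => (x + t, 0)) '' Icc (0 : ℝ) h) := by
  refine ⟨hh, fun t => (x + t, 0), ?_, by simp, rfl, rfl⟩
  intro s _ t _ hst
  simp only [sub_self, abs_zero, add_zero]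
  rw [abs_of_nonneg (by linarith)]
  linarith

lemma exists_comb (ε : ℝ) (hε : 0 < ε) (K : ℕ) :
    ∃ F : Set (ℝ × ℝ), Rect ((6 * K + 4) * ε) (0, 0) (2 * ε * K, 0) F ∧
      (∀ i : ℕ, i < K + 1 → ((2 * ε * i, 2 * ε) : ℝ × ℝ) ∈ F) ∧
      (∀ p ∈ F, p.2 = 0 ∨ ∃ i : ℕ, p.1 = 2 * ε * i) := by
  have needle : ∀ x : ℝ, ∃ F : Set (ℝ × ℝ), Rect (4 * ε) (x, 0) (x, 0) F ∧
      ((x, 2 * ε) : ℝ × ℝ) ∈ F ∧ ∀ p ∈ F, p.1 = x := by
    intro x
    have hr := rect_concat (rect_up x (2 * ε) (by linarith)) (rect_down x (2 * ε) (by linarith))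
    rw [show 2 * ε + 2 * ε = 4 * ε by ring] at hr
    refine ⟨_, hr, ?_, ?_⟩
    · left
      exact ⟨2 * ε, ⟨by linarith, le_rfl⟩, rfl⟩
    · rintro p (⟨t, -, rfl⟩ | ⟨t, -, rfl⟩) <;> rfl
  induction K with
  | zero =>
    obtain ⟨F, h1, h2, h3⟩ := needle 0
    refine ⟨F, by simpa using h1, ?_, ?_⟩
    · intro i hi
      have : i = 0 := by omega
      subst this
      simpa using h2
    · intro p hp
      right
      exact ⟨0, by simpa using h3 p hp⟩
  | succ K ih =>
    obtain ⟨F, h1, h2, h3⟩ := ih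
    obtain ⟨G, k1, k2, k3⟩ := needle (2 * ε * (K + 1 : ℕ))
    have hr := rect_right (2 * ε * K) (2 * ε) (by linarith)
    rw [show 2 * ε * (K : ℝ) + 2 * ε = 2 * ε * (K + 1 : ℕ) by push_cast; ring] at hr
    have hc := rect_concat (rect_concat h1 hr) k1
    rw [show (6 * (K : ℝ) + 4) * ε + 2 * ε + 4 * ε = (6 * ((K + 1 : ℕ) : ℝ) + 4) * ε by
      push_cast; ring] at hc
    refine ⟨_, hc, ?_, ?_⟩
    · intro i hi
      rcases Nat.lt_succ_iff_lt_or_eq.mp hi with h | h
      · left; left
        exact h2 i h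
      · right
        subst h
        exact k2
    · rintro p ((hp | ⟨t, -, rfl⟩) | hp)
      · exact h3 p hp
      · left; rfl
      · right
        exact ⟨K + 1, k3 p hp⟩

lemma abs_fst_lt {p q : ℝ × ℝ} {d : ℝ} (h : dist p q < d) : |p.1 - q.1| < d :=
  lt_of_le_of_lt (le_max_left _ _) h

lemma abs_snd_lt {p q : ℝ × ℝ} {d : ℝ} (h : dist p q < d) : |p.2 - q.2| < d :=
  lt_of_le_of_lt (le_max_right _ _) h

lemma comb_lower {ε : ℝ} (hε : 0 < ε) (K : ℕ) (F : Set (ℝ × ℝ))
    (htips : ∀ i : ℕ, i < K + 1 → ((2 * ε * i, 2 * ε) : ℝ × ℝ) ∈ F)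
    (hF : ∀ p ∈ F, p.2 = 0 ∨ ∃ i : ℕ, p.1 = 2 * ε * i) (hbd : Bornology.IsBounded F)
    {n : ℕ} {γ : Set (ℝ × ℝ)} (hγ : γ ∈ MSq n) (hd : Metric.hausdorffDist F γ < ε) :
    2 * K ≤ n := by
  obtain ⟨φ, ψ, hφ, hψ, -, hsec, rfl⟩ := hγ
  set γ := (fun t => (φ t, ψ t)) '' Icc (0 : ℝ) 1 with hγ
  have hFne : F.Nonempty := ⟨_, htips 0 (by omega)⟩
  have hγne : γ.Nonempty := ⟨_, ⟨0, by constructor <;> norm_num, rfl⟩⟩
  have hγbd : Bornology.IsBounded γ :=
    (isCompact_Icc.image_of_continuousOn (hφ.prodMk hψ)).isBounded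
  have hfin : Metric.hausdorffEDist F γ ≠ ⊤ :=
    Metric.hausdorffEDist_ne_top_of_nonempty_of_bounded hFne hγne hbd hγbd
  set d := (Metric.hausdorffDist F γ + ε) / 2 with hd'
  have hd1 : Metric.hausdorffDist F γ < d := by rw [hd']; linarith
  have hd2 : d < ε := by rw [hd']; linarith
  have hd0 : 0 < d := lt_of_le_of_lt Metric.hausdorffDist_nonneg hd1
  -- times near the tips
  have h1 : ∀ i : Fin (K + 1), ∃ t ∈ Icc (0 : ℝ) 1,
      dist ((2 * ε * (i : ℕ), 2 * ε) : ℝ × ℝ) (φ t, ψ t) < d := by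
    intro i
    obtain ⟨q, ⟨t, ht, rfl⟩, hq⟩ := Metric.exists_dist_lt_of_hausdorffDist_lt
      (htips i i.2) hd1 hfin
    exact ⟨t, ht, hq⟩
  choose τ hτ hτd using h1
  -- every point of γ is near F
  have h2 : ∀ t ∈ Icc (0 : ℝ) 1, ∃ p ∈ F, dist p ((φ t, ψ t) : ℝ × ℝ) < d := by
    intro t ht
    exact Metric.exists_dist_lt_of_hausdorffDist_lt'
      (show ((φ t, ψ t) : ℝ × ℝ) ∈ γ from ⟨t, ht, rfl⟩) hd1 hfin
  set σ := Tuple.sort τ with hσ
  have hmono : Monotone (τ ∘ σ) := Tuple.monotone_sort τ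
  let T : ℕ → ℝ := fun j => if h : j < K + 1 then τ (σ ⟨j, h⟩) else 1
  have hTval : ∀ (j : ℕ) (h : j < K + 1), T j = τ (σ ⟨j, h⟩) := fun j h => by simp only [T, h, dif_pos]
  have hw : ∀ j : ℕ, j < K → ∃ w, w ∈ Icc (T j) (T (j + 1)) ∧ ψ w ≤ d := by
    intro j hj
    have hj0 : j < K + 1 := by omega
    have hj1 : j + 1 < K + 1 := by omega
    have hle : T j ≤ T (j + 1) := by
      rw [hTval j hj0, hTval (j + 1) hj1]
      exact hmono (by simp [Fin.le_def])
    have hsub : Icc (T j) (T (j + 1)) ⊆ Icc (0 : ℝ) 1 := by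
      rw [hTval j hj0, hTval (j + 1) hj1]
      exact Icc_subset_Icc (hτ _).1 (hτ _).2
    have hcont : ContinuousOn φ (Icc (T j) (T (j + 1))) := hφ.mono hsub
    have hne : σ ⟨j, hj0⟩ ≠ σ ⟨j + 1, hj1⟩ := by
      intro h
      have := σ.injective h
      simp at this
    have ha := abs_lt.mp (abs_fst_lt (hτd (σ ⟨j, hj0⟩)))
    have hb := abs_lt.mp (abs_fst_lt (hτd (σ ⟨j + 1, hj1⟩)))
    rw [← hTval j hj0] at ha
    rw [← hTval (j + 1) hj1] at hb
    simp only at ha hb
    set a : ℕ := (σ ⟨j, hj0⟩ : ℕ) with ha'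
    set b : ℕ := (σ ⟨j + 1, hj1⟩ : ℕ) with hb'
    have hab : a ≠ b := fun h => hne (Fin.ext h)
    -- a point with first coordinate on a mid line
    have hmid : ∃ w ∈ Icc (T j) (T (j + 1)), ∃ m : ℕ, φ w = 2 * ε * m + ε := by
      rcases Nat.lt_or_gt_of_ne hab with h | h
      · have hbr : ((a : ℝ) + 1) ≤ b := by exact_mod_cast h
        have := intermediate_value_Icc hle hcont
        have hv : 2 * ε * a + ε ∈ Icc (φ (T j)) (φ (T (j + 1))) := by
          constructor
          · linarith [ha.1]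
          · nlinarith [hb.2]
        obtain ⟨w, hw, hwv⟩ := this hv
        exact ⟨w, hw, a, hwv⟩
      · have hbr : ((b : ℝ) + 1) ≤ a := by exact_mod_cast h
        have := intermediate_value_Icc' hle hcont
        have hv : 2 * ε * b + ε ∈ Icc (φ (T (j + 1))) (φ (T j)) := by
          constructor
          · linarith [hb.1]
          · nlinarith [ha.2]
        obtain ⟨w, hw, hwv⟩ := this hv
        exact ⟨w, hw, b, hwv⟩
    obtain ⟨w, hw, m, hwm⟩ := hmid
    refine ⟨w, hw, ?_⟩
    obtain ⟨p, hp, hpd⟩ := h2 w (hsub hw)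
    rcases hF p hp with h0 | ⟨i, hi⟩
    · have := abs_lt.mp (abs_snd_lt hpd)
      simp only [h0] at this
      linarith [this.1]
    · exfalso
      have h3 := abs_lt.mp (abs_fst_lt hpd)
      simp only [hi, hwm] at h3
      rcases Nat.lt_or_ge m i with h | h
      · have : ((m : ℝ) + 1) ≤ i := by exact_mod_cast h
        nlinarith [h3.2]
      · have : (i : ℝ) ≤ m := by exact_mod_cast h
        nlinarith [h3.1]
  choose! w hwI hwψ using hw
  let s : ℕ → ℝ := fun i => if i % 2 = 0 then T (i / 2) else w (i / 2)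
  have hs0 : ∀ j, s (2 * j) = T j := by
    intro j
    simp only [s, Nat.mul_mod_right, if_true]
    congr 1
    omega
  have hs1 : ∀ j, s (2 * j + 1) = w j := by
    intro j
    have h1 : (2 * j + 1) % 2 ≠ 0 := by omega
    have h2 : (2 * j + 1) / 2 = j := by omega
    simp only [s, h1, if_false, h2]
  have hTI : ∀ j, j < K + 1 → T j ∈ Icc (0 : ℝ) 1 := by
    intro j hj
    rw [hTval j hj]
    exact hτ _
  have hres := sections_alt hsec (2 * ε - d) d (by linarith) (2 * K + 1) s ?_ ?_ ?_
  · omega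
  · intro i hi
    rcases Nat.even_or_odd' i with ⟨j, rfl | rfl⟩
    · rw [hs0]; exact hTI j (by omega)
    · rw [hs1]
      have hj : j < K := by omega
      exact ⟨(hTI j (by omega)).1.trans (hwI j hj).1, (hwI j hj).2.trans (hTI (j + 1) (by omega)).2⟩
  · intro i hi
    rcases Nat.even_or_odd' i with ⟨j, rfl | rfl⟩
    · rw [hs0, hs1]
      exact (hwI j (by omega)).1
    · rw [hs1, show 2 * j + 1 + 1 = 2 * (j + 1) by ring, hs0]
      exact (hwI j (by omega)).2
  · intro i hi
    rcases Nat.even_or_odd' i with ⟨j, rfl | rfl⟩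
    · refine ⟨fun _ => ?_, fun h => by omega⟩
      rw [hs0, hTval j (by omega)]
      have := abs_lt.mp (abs_snd_lt (hτd (σ ⟨j, by omega⟩)))
      simp only at this
      linarith [this.2]
    · refine ⟨fun h => by omega, fun _ => ?_⟩
      rw [hs1]
      exact hwψ j (by omega)

lemma rect_mem_gamma1 {L : ℝ} {a b : ℝ × ℝ} {F : Set (ℝ × ℝ)} (h : Rect L a b F) (hL : L ≤ 1) :
    F ∈ Gamma1 := by
  obtain ⟨hL0, g, hg, -, -, hF⟩ := h
  have hmem : ∀ t ∈ Icc (0 : ℝ) 1, L * t ∈ Icc (0 : ℝ) L := by
    intro t ht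
    exact ⟨by nlinarith [ht.1], by nlinarith [ht.2]⟩
  have hlip : ∀ s ∈ Icc (0 : ℝ) 1, ∀ t ∈ Icc (0 : ℝ) 1, s ≤ t →
      |(g (L * t)).1 - (g (L * s)).1| + |(g (L * t)).2 - (g (L * s)).2| ≤ L * (t - s) := by
    intro s hs t ht hst
    have := hg (L * s) (hmem s hs) (L * t) (hmem t ht) (by nlinarith)
    linarith
  refine ⟨fun t => g (L * t), ?_, ?_, ?_⟩
  · -- continuity
    have : LipschitzOnWith 1 (fun t => g (L * t)) (Icc (0 : ℝ) 1) := by
      apply LipschitzOnWith.of_dist_le_mul
      intro s hs t ht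
      simp only [NNReal.coe_one, one_mul]
      rcases le_total s t with hst | hst
      · have h1 := hlip s hs t ht hst
        have h2 : dist (g (L * s)) (g (L * t)) ≤ L * (t - s) := by
          rw [dist_comm]
          apply max_le
          · exact (le_add_of_nonneg_right (abs_nonneg _)).trans h1
          · exact (le_add_of_nonneg_left (abs_nonneg _)).trans h1
        rw [Real.dist_eq, abs_sub_comm, abs_of_nonneg (by linarith)]
        nlinarith
      · have h1 := hlip t ht s hs hst
        have h2 : dist (g (L * s)) (g (L * t)) ≤ L * (s - t) := by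
          apply max_le
          · exact (le_add_of_nonneg_right (abs_nonneg _)).trans h1
          · exact (le_add_of_nonneg_left (abs_nonneg _)).trans h1
        rw [Real.dist_eq, abs_of_nonneg (by linarith)]
        nlinarith
    exact this.continuousOn
  · intro m t htm htI
    have hterm : ∀ i ∈ Finset.range m, √(((g (L * t (i + 1))).1 - (g (L * t i)).1) ^ 2
        + ((g (L * t (i + 1))).2 - (g (L * t i)).2) ^ 2) ≤ L * t (i + 1) - L * t i := by
      intro i _
      have h1 := hlip (t i) (htI i) (t (i + 1)) (htI (i + 1)) (htm (Nat.le_succ i))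
      set A := (g (L * t (i + 1))).1 - (g (L * t i)).1
      set B := (g (L * t (i + 1))).2 - (g (L * t i)).2
      have h2 : √(A ^ 2 + B ^ 2) ≤ |A| + |B| := by
        apply Real.sqrt_le_iff.mpr
        refine ⟨by positivity, ?_⟩
        nlinarith [abs_nonneg A, abs_nonneg B, sq_abs A, sq_abs B,
          mul_nonneg (abs_nonneg A) (abs_nonneg B)]
      linarith
    calc _ ≤ ∑ i ∈ Finset.range m, (L * t (i + 1) - L * t i) := Finset.sum_le_sum hterm
      _ = L * t m - L * t 0 := Finset.sum_range_sub (fun i => L * t i) m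
      _ ≤ 1 := by
        have h1 := (htI m).2
        have h2 := (htI 0).1
        nlinarith [(htI m).1]
  · rw [hF]
    ext p
    constructor
    · rintro ⟨t, ht, rfl⟩
      rcases eq_or_lt_of_le hL0 with h0 | h0
      · have : t = 0 := le_antisymm (h0 ▸ ht.2) ht.1
        subst this
        exact ⟨0, by constructor <;> norm_num, by simp⟩
      · refine ⟨t / L, ⟨div_nonneg ht.1 hL0, (div_le_one h0).mpr ht.2⟩, ?_⟩
        simp only
        congr 1
        field_simp
    · rintro ⟨t, ht, rfl⟩
      exact ⟨L * t, hmem t ht, rfl⟩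

lemma gamma1_bounded {F : Set (ℝ × ℝ)} (h : F ∈ Gamma1) : Bornology.IsBounded F ∧ F.Nonempty := by
  obtain ⟨g, hg, -, rfl⟩ := h
  exact ⟨(isCompact_Icc.image_of_continuousOn hg).isBounded,
    ⟨_, ⟨0, by constructor <;> norm_num, rfl⟩⟩⟩

/-- Lower bound. -/
theorem exists_hard (n : ℕ) :
    ∃ F ∈ Gamma1, ∀ γ ∈ MSq n, 1 / (3 * (n : ℝ) + 10) ≤ Metric.hausdorffDist F γ := by
  set K := n / 2 + 1 with hK
  set ε : ℝ := 1 / (6 * K + 4) with hε
  have hε0 : 0 < ε := by positivity
  obtain ⟨F, h1, h2, h3⟩ := exists_comb ε hε0 K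
  have hlen : (6 * (K : ℝ) + 4) * ε ≤ 1 := by rw [hε]; field_simp; exact le_refl _
  have hFG : F ∈ Gamma1 := rect_mem_gamma1 h1 hlen
  refine ⟨F, hFG, ?_⟩
  intro γ hγ
  by_contra hlt
  push Not at hlt
  have hle : 1 / (3 * (n : ℝ) + 10) ≤ ε := by
    rw [hε]
    apply one_div_le_one_div_of_le (by positivity)
    have : 2 * K ≤ n + 2 := by omega
    have : 2 * (K : ℝ) ≤ n + 2 := by exact_mod_cast this
    linarith
  have := comb_lower hε0 K F h2 h3 (gamma1_bounded hFG).1 hγ (lt_of_lt_of_le hlt hle)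
  omega


/-! ### Piecewise monotone approximation of a function of bounded variation -/

/-- the variation of `f` on `[a,b]` is at most `v` -/
def VarLE (f : ℝ → ℝ) (a b v : ℝ) : Prop :=
  ∀ (m : ℕ) (t : ℕ → ℝ), Monotone t → (∀ i, t i ∈ Icc a b) →
    ∑ i ∈ Finset.range m, |f (t (i + 1)) - f (t i)| ≤ v

lemma exists_mid {f : ℝ → ℝ} (hf : Continuous f) {a b ε : ℝ} (hab : a ≤ b)
    (hosc : ∀ s ∈ Icc a b, ∀ t ∈ Icc a b, |f t - f s| ≤ 2 * ε) :
    ∃ c, ∀ t ∈ Icc a b, |f t - c| ≤ ε := by
  obtain ⟨tM, hM, hmax⟩ := isCompact_Icc.exists_isMaxOn (nonempty_Icc.mpr hab) hf.continuousOn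
  obtain ⟨tm, hm, hmin⟩ := isCompact_Icc.exists_isMinOn (nonempty_Icc.mpr hab) hf.continuousOn
  refine ⟨(f tM + f tm) / 2, ?_⟩
  intro t ht
  have h1 : f t ≤ f tM := hmax ht
  have h2 : f tm ≤ f t := hmin ht
  have h3 := (abs_le.mp (hosc tm hm tM hM)).2
  rw [abs_le]
  constructor <;> linarith

lemma bv_approx {f : ℝ → ℝ} (hf : Continuous f) {ε δ : ℝ} (hε : 0 < ε) (hδ : 0 < δ) (n : ℕ) :
    ∀ a b : ℝ, a ≤ b → VarLE f a b (2 * ε * (n + 1)) →
      ∃ g : ℝ → ℝ, Continuous g ∧ (∀ t ∈ Icc a b, |f t - g t| ≤ ε + δ) ∧ |f a - g a| ≤ ε ∧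
        Sections (n + 1) a b g := by
  induction n with
  | zero =>
    intro a b hab hvar
    have hosc : ∀ s ∈ Icc a b, ∀ t ∈ Icc a b, |f t - f s| ≤ 2 * ε := by
      have key : ∀ s ∈ Icc a b, ∀ t ∈ Icc a b, s ≤ t → |f t - f s| ≤ 2 * ε := by
        intro s hs t ht hst
        have := hvar 1 (fun i => if i = 0 then s else t) ?_ ?_
        · simpa using this
        · intro i j hij
          by_cases hi : i = 0
          · by_cases hj : j = 0
            · simp [hi, hj]
            · simp [hi, hj, hst]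
          · have hj : j ≠ 0 := by omega
            simp [hi, hj]
        · intro i
          by_cases hi : i = 0
          · simp [hi, hs.1, hs.2]
          · simp [hi, ht.1, ht.2]
      intro s hs t ht
      rcases le_total s t with h | h
      · exact key s hs t ht h
      · rw [abs_sub_comm]; exact key t ht s hs h
    obtain ⟨c, hc⟩ := exists_mid hf hab hosc
    refine ⟨fun _ => c, continuous_const, fun t ht => (hc t ht).trans (by linarith),
      hc a ⟨le_rfl, hab⟩, ?_⟩
    rcases eq_or_lt_of_le hab with h | h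
    · exact ⟨0, by omega, fun _ => a, rfl, h, by simp, by simp⟩
    · refine ⟨1, by omega, fun i => if i = 0 then a else b, by simp, by simp, ?_, ?_⟩
      · intro i hi
        have : i = 0 := by omega
        subst this
        simpa using h
      · intro i _
        left
        exact fun _ _ _ _ _ => le_rfl
  | succ n ih =>
    intro a b hab hvar
    -- the set of first times with oscillation at least 2 ε
    let S : Set (ℝ × ℝ) := {p | p.1 ∈ Icc a b ∧ p.2 ∈ Icc a b ∧ p.2 ≤ p.1 ∧ 2 * ε ≤ |f p.1 - f p.2|}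
    have hSclosed : IsClosed S := by
      have e : S = (Icc a b ×ˢ Icc a b) ∩ ({p | p.2 ≤ p.1} ∩ {p : ℝ × ℝ | 2 * ε ≤ |f p.1 - f p.2|}) := by
        ext p
        simp only [S, mem_ofPred_eq, mem_inter_iff, mem_prod]
        tauto
      rw [e]
      refine IsClosed.inter (isClosed_Icc.prod isClosed_Icc) (IsClosed.inter ?_ ?_)
      · exact isClosed_le continuous_snd continuous_fst
      · exact isClosed_le continuous_const (by fun_prop)
    have hScompact : IsCompact S := by
      refine (isCompact_Icc (a := a) (b := b)).prod (isCompact_Icc (a := a) (b := b)) |>.of_isClosed_subset hSclosed ?_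
      intro p hp
      exact ⟨hp.1, hp.2.1⟩
    by_cases hSne : S.Nonempty
    · obtain ⟨ts, hleast⟩ := (hScompact.image continuous_fst).exists_isLeast (hSne.image _)
      obtain ⟨⟨⟨ts', ss⟩, hmemS, hts'⟩, hlow⟩ := hleast
      simp only at hts'
      subst hts'
      obtain ⟨htI, hsI, hst, hbig⟩ := hmemS
      simp only at htI hsI hst hbig
      have hlow' : ∀ t ∈ Icc a b, ∀ s ∈ Icc a b, s ≤ t → 2 * ε ≤ |f t - f s| → ts' ≤ t := by
        intro t ht s hs hst hb
        exact hlow ⟨(t, s), ⟨ht, hs, hst, hb⟩, rfl⟩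
      have hats : a < ts' := by
        rcases eq_or_lt_of_le hst with h | h
        · exfalso
          rw [h] at hbig
          simp only [sub_self, abs_zero] at hbig
          linarith
        · exact lt_of_le_of_lt hsI.1 h
      -- oscillation on [a, ts'] at most 2 ε
      have hosc1 : ∀ s ∈ Icc a ts', ∀ t ∈ Icc a ts', s ≤ t → |f t - f s| ≤ 2 * ε := by
        intro s hs t ht hst
        by_contra hcon
        push Not at hcon
        have htb : t ∈ Icc a b := ⟨ht.1, ht.2.trans htI.2⟩
        have hsb : s ∈ Icc a b := ⟨hs.1, hs.2.trans htI.2⟩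
        have hcont : ContinuousOn (fun r => |f r - f s|) (Icc s t) := by
          apply Continuous.continuousOn; fun_prop
        have hiv := intermediate_value_Icc hst hcont
        have hmid : (2 * ε + |f t - f s|) / 2 ∈ Icc (|f s - f s|) (|f t - f s|) := by
          simp only [sub_self, abs_zero]
          constructor
          · have := abs_nonneg (f t - f s); linarith
          · linarith
        have h2 : 2 * ε ∈ Icc (|f s - f s|) (|f t - f s|) := by
          simp only [sub_self, abs_zero]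
          exact ⟨by linarith, hcon.le⟩
        obtain ⟨r, hr, hrv⟩ := hiv h2
        simp only at hrv
        have hrb : r ∈ Icc a b := ⟨hs.1.trans hr.1, hr.2.trans htb.2⟩
        have h3 := hlow' r hrb s hsb hr.1 hrv.ge
        have h4 : r = t := le_antisymm hr.2 (ht.2.trans h3)
        rw [h4] at hrv
        linarith
      have hosc : ∀ s ∈ Icc a ts', ∀ t ∈ Icc a ts', |f t - f s| ≤ 2 * ε := by
        intro s hs t ht
        rcases le_total s t with h | h
        · exact hosc1 s hs t ht h
        · rw [abs_sub_comm]; exact hosc1 t ht s hs h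
      obtain ⟨c, hc⟩ := exists_mid hf hats.le hosc
      -- variation of the rest
      have hvar' : VarLE f ts' b (2 * ε * (n + 1)) := by
        intro m t htm htI'
        have hu := hvar (m + 2) (fun i => if i = 0 then ss else if i = 1 then ts' else t (i - 2)) ?_ ?_
        · rw [Finset.sum_range_succ', Finset.sum_range_succ'] at hu
          have e1 : ∀ i : ℕ, (if i + 1 + 1 + 1 = 0 then ss else if i + 1 + 1 + 1 = 1 then ts'
              else t (i + 1 + 1 + 1 - 2)) = t (i + 1) := by
            intro i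
            have h1 : i + 1 + 1 + 1 ≠ 0 := by omega
            have h2 : i + 1 + 1 + 1 ≠ 1 := by omega
            simp only [h1, h2, if_false]
            congr 1
          have e2 : ∀ i : ℕ, (if i + 1 + 1 = 0 then ss else if i + 1 + 1 = 1 then ts'
              else t (i + 1 + 1 - 2)) = t i := by
            intro i
            have h1 : i + 1 + 1 ≠ 0 := by omega
            have h2 : i + 1 + 1 ≠ 1 := by omega
            simp only [h1, h2, if_false]
            congr 1
          simp only [e1, e2] at hu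
          simp only [zero_add, if_true, if_false, show ((0 : ℕ) + 1 = 0) = False by simp] at hu
          have h1 := abs_nonneg (f (t (1 + 1 - 2)) - f ts')
          push_cast at hu
          linarith
        · intro i j hij
          simp only
          by_cases hi0 : i = 0
          · by_cases hj0 : j = 0
            · simp [hi0, hj0]
            · by_cases hj1 : j = 1
              · simp [hi0, hj1, hst]
              · simp only [hi0, hj0, hj1, if_true, if_false]
                exact hst.trans (htI' _).1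
          · have hj0 : j ≠ 0 := by omega
            by_cases hi1 : i = 1
            · by_cases hj1 : j = 1
              · simp [hi1, hj1]
              · simp only [hi1, hj0, hj1, if_true, if_false, one_ne_zero]
                exact (htI' _).1
            · have hj1 : j ≠ 1 := by omega
              simp only [hi0, hj0, hi1, hj1, if_false]
              exact htm (by omega)
        · intro i
          by_cases hi0 : i = 0
          · simp [hi0, hsI.1, hsI.2]
          · by_cases hi1 : i = 1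
            · simp [hi1, htI.1, htI.2]
            · simp only [hi0, hi1, if_false]
              exact ⟨htI.1.trans (htI' _).1, (htI' _).2⟩
      obtain ⟨g', hg'c, hg'err, hg'a, k, hk, t, ht0, htk, htlt, htmono⟩ := ih ts' b htI.2 hvar'
      -- the connecting piece
      obtain ⟨η, hη, hηf⟩ := Metric.continuous_iff.mp hf ts' δ hδ
      set θ := min (η / 2) (ts' - a) with hθ
      have hθ0 : 0 < θ := lt_min (by linarith) (by linarith)
      have hθ1 : θ ≤ η / 2 := min_le_left _ _
      have hθ2 : θ ≤ ts' - a := min_le_right _ _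
      let ℓ : ℝ → ℝ := fun r => c + (g' ts' - c) * max 0 (1 - (ts' - r) / θ)
      have hℓc : Continuous ℓ := by fun_prop
      have hℓts : ℓ ts' = g' ts' := by simp [ℓ]
      have hℓmono : MonotoneOn ℓ (Icc a ts') ∨ AntitoneOn ℓ (Icc a ts') := by
        have hm : Monotone (fun r : ℝ => max 0 (1 - (ts' - r) / θ)) := by
          intro r s hrs
          apply max_le_max le_rfl
          have : (ts' - s) / θ ≤ (ts' - r) / θ := by gcongr
          linarith
        rcases le_total c (g' ts') with h | h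
        · left
          intro r _ s _ hrs
          have := hm hrs
          simp only [ℓ]
          simp only at this
          nlinarith
        · right
          intro r _ s _ hrs
          have := hm hrs
          simp only [ℓ]
          simp only at this
          nlinarith
      have hcts : |f ts' - c| ≤ ε := hc ts' ⟨hats.le, le_rfl⟩
      have hℓerr : ∀ r ∈ Icc a ts', |f r - ℓ r| ≤ ε + δ := by
        intro r hr
        rcases le_or_gt r (ts' - θ) with h | h
        · have h1 : 1 - (ts' - r) / θ ≤ 0 := by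
            have : 1 ≤ (ts' - r) / θ := by rw [le_div_iff₀ hθ0]; linarith
            linarith
          have : ℓ r = c := by simp only [ℓ, max_eq_left h1, mul_zero, add_zero]
          rw [this]
          exact (hc r hr).trans (by linarith)
        · set lam := max 0 (1 - (ts' - r) / θ) with hlam
          have hl0 : 0 ≤ lam := le_max_left _ _
          have hl1 : lam ≤ 1 := by
            apply max_le (by norm_num)
            have : 0 ≤ (ts' - r) / θ := div_nonneg (by linarith [hr.2]) hθ0.le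
            linarith
          have h1 : |f r - f ts'| ≤ δ := by
            have := hηf r (by rw [Real.dist_eq, abs_lt]; constructor <;> linarith [hr.2])
            rw [Real.dist_eq] at this
            exact this.le
          have h2 : |f ts' - ℓ r| ≤ ε := by
            have : f ts' - ℓ r = (1 - lam) * (f ts' - c) + lam * (f ts' - g' ts') := by
              simp only [ℓ, ← hlam]; ring
            rw [this]
            calc |(1 - lam) * (f ts' - c) + lam * (f ts' - g' ts')|
                ≤ |(1 - lam) * (f ts' - c)| + |lam * (f ts' - g' ts')| := abs_add_le _ _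
              _ = (1 - lam) * |f ts' - c| + lam * |f ts' - g' ts'| := by
                  rw [abs_mul, abs_mul, abs_of_nonneg hl0, abs_of_nonneg (by linarith : 0 ≤ 1 - lam)]
              _ ≤ (1 - lam) * ε + lam * ε := by
                  gcongr
              _ = ε := by ring
          calc |f r - ℓ r| = |(f r - f ts') + (f ts' - ℓ r)| := by ring_nf
            _ ≤ |f r - f ts'| + |f ts' - ℓ r| := abs_add_le _ _
            _ ≤ ε + δ := by linarith
      let g : ℝ → ℝ := fun r => if r ≤ ts' then ℓ r else g' r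
      have hgc : Continuous g := by
        apply Continuous.if_le hℓc hg'c continuous_id continuous_const
        intro r hr
        simp only [id] at hr
        rw [hr, hℓts]
      have hgl : ∀ r, r ≤ ts' → g r = ℓ r := fun r hr => by simp only [g, hr, if_true]
      have hgr : ∀ r, ts' ≤ r → g r = g' r := by
        intro r hr
        rcases eq_or_lt_of_le hr with h | h
        · rw [← h, hgl ts' le_rfl, hℓts]
        · simp only [g, not_le.mpr h, if_false]
      refine ⟨g, hgc, ?_, ?_, ?_⟩
      · intro r hr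
        rcases le_total r ts' with h | h
        · rw [hgl r h]; exact hℓerr r ⟨hr.1, h⟩
        · rw [hgr r h]; exact hg'err r ⟨h, hr.2⟩
      · rw [hgl a hats.le]
        have h1 : 1 - (ts' - a) / θ ≤ 0 := by
          have : 1 ≤ (ts' - a) / θ := by rw [le_div_iff₀ hθ0]; linarith
          linarith
        have : ℓ a = c := by simp only [ℓ, max_eq_left h1, mul_zero, add_zero]
        rw [this]
        exact hc a ⟨le_rfl, hats.le⟩
      · refine ⟨k + 1, by omega, fun i => if i = 0 then a else t (i - 1), by simp, ?_, ?_, ?_⟩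
        · simp [htk]
        · intro i hi
          rcases i with _ | i
          · simp [ht0, hats]
          · simpa using htlt i (by omega)
        · intro i hi
          rcases i with _ | i
          · simp only [zero_add, if_true, one_ne_zero, if_false, Nat.sub_self, ht0]
            rcases hℓmono with h | h
            · left
              intro r hr s hs hrs
              rw [hgl r hr.2, hgl s hs.2]; exact h hr hs hrs
            · right
              intro r hr s hs hrs
              rw [hgl r hr.2, hgl s hs.2]; exact h hr hs hrs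
          · have h1 : i + 1 ≠ 0 := by omega
            have h2 : i + 1 + 1 ≠ 0 := by omega
            simp only [h1, h2, if_false, Nat.add_sub_cancel]
            have hge : ∀ j, j ≤ k → ts' ≤ t j := by
              intro j
              induction j with
              | zero => intro _; rw [ht0]
              | succ j ihj => intro hj; exact (ihj (by omega)).trans (htlt j (by omega)).le
            have hge' := hge i (by omega)
            rcases htmono i (by omega) with h | h
            · left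
              intro r hr s hs hrs
              rw [hgr r (hge'.trans hr.1), hgr s (hge'.trans hs.1)]; exact h hr hs hrs
            · right
              intro r hr s hs hrs
              rw [hgr r (hge'.trans hr.1), hgr s (hge'.trans hs.1)]; exact h hr hs hrs
    · -- single piece
      have hosc1 : ∀ s ∈ Icc a b, ∀ t ∈ Icc a b, s ≤ t → |f t - f s| ≤ 2 * ε := by
        intro s hs t ht hst
        by_contra hcon
        push Not at hcon
        exact hSne ⟨(t, s), ht, hs, hst, hcon.le⟩
      have hosc : ∀ s ∈ Icc a b, ∀ t ∈ Icc a b, |f t - f s| ≤ 2 * ε := by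
        intro s hs t ht
        rcases le_total s t with h | h
        · exact hosc1 s hs t ht h
        · rw [abs_sub_comm]; exact hosc1 t ht s hs h
      obtain ⟨c, hc⟩ := exists_mid hf hab hosc
      refine ⟨fun _ => c, continuous_const, fun t ht => (hc t ht).trans (by linarith),
        hc a ⟨le_rfl, hab⟩, ?_⟩
      rcases eq_or_lt_of_le hab with h | h
      · exact ⟨0, by omega, fun _ => a, rfl, h, by simp, by simp⟩
      · refine ⟨1, by omega, fun i => if i = 0 then a else b, by simp, by simp, ?_, ?_⟩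
        · intro i hi
          have : i = 0 := by omega
          subst this
          simpa using h
        · intro i _
          left
          exact fun _ _ _ _ _ => le_rfl

/-- clamp to `[0,1]` -/
noncomputable def clamp (t : ℝ) : ℝ := max 0 (min 1 t)

lemma clamp_mem (t : ℝ) : clamp t ∈ Icc (0 : ℝ) 1 :=
  ⟨le_max_left _ _, max_le (by norm_num) (min_le_left _ _)⟩

lemma clamp_eq {t : ℝ} (ht : t ∈ Icc (0 : ℝ) 1) : clamp t = t := by
  unfold clamp
  rw [min_eq_right ht.2, max_eq_right ht.1]

lemma coords {g : ℝ → ℝ × ℝ} (hg : ContinuousOn g (Icc 0 1)) (hL : LengthLE g 1) :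
    ∃ x y : ℝ → ℝ, Continuous x ∧ Continuous y ∧ (∀ t ∈ Icc (0 : ℝ) 1, g t = (x t, y t)) ∧
      VarLE x 0 1 1 ∧ VarLE y 0 1 1 := by
  have hcl : Continuous clamp := by unfold clamp; fun_prop
  have hgc : Continuous (fun t => g (clamp t)) := hg.comp_continuous hcl clamp_mem
  refine ⟨fun t => (g (clamp t)).1, fun t => (g (clamp t)).2, continuous_fst.comp hgc,
    continuous_snd.comp hgc, ?_, ?_, ?_⟩
  · intro t ht
    simp only [clamp_eq ht]
  · intro m t htm htI
    refine le_trans (Finset.sum_le_sum ?_) (hL m t htm htI)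
    intro i _
    simp only [clamp_eq (htI _)]
    apply Real.abs_le_sqrt
    nlinarith [sq_nonneg ((g (t (i + 1))).2 - (g (t i)).2)]
  · intro m t htm htI
    refine le_trans (Finset.sum_le_sum ?_) (hL m t htm htI)
    intro i _
    simp only [clamp_eq (htI _)]
    apply Real.abs_le_sqrt
    nlinarith [sq_nonneg ((g (t (i + 1))).1 - (g (t i)).1)]

/-- Upper bound. -/
theorem exists_approx {F : Set (ℝ × ℝ)} (hF : F ∈ Gamma1) (n : ℕ) (hn : 1 ≤ n) {δ : ℝ}
    (hδ : 0 < δ) : ∃ γ ∈ MSq n, Metric.hausdorffDist F γ ≤ 1 / (2 * (n : ℝ)) + δ := by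
  obtain ⟨g, hg, hL, rfl⟩ := hF
  obtain ⟨x, y, hx, hy, hxy, hvx, hvy⟩ := coords hg hL
  obtain ⟨m, rfl⟩ : ∃ m, n = m + 1 := ⟨n - 1, by omega⟩
  set ε : ℝ := 1 / (2 * ((m + 1 : ℕ) : ℝ)) with hε
  have hε0 : 0 < ε := by positivity
  have hv : 2 * ε * ((m : ℝ) + 1) = 1 := by rw [hε]; push_cast; field_simp
  obtain ⟨φ, hφc, hφ, -, hφs⟩ := bv_approx hx hε0 hδ m 0 1 (by norm_num) (by rw [hv]; exact hvx)
  obtain ⟨ψ, hψc, hψ, -, hψs⟩ := bv_approx hy hε0 hδ m 0 1 (by norm_num) (by rw [hv]; exact hvy)
  refine ⟨_, ⟨φ, ψ, hφc.continuousOn, hψc.continuousOn, hφs, hψs, rfl⟩, ?_⟩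
  apply Metric.hausdorffDist_le_of_mem_dist (by positivity)
  · rintro _ ⟨t, ht, rfl⟩
    refine ⟨_, ⟨t, ht, rfl⟩, ?_⟩
    rw [hxy t ht]
    exact max_le (hφ t ht) (hψ t ht)
  · rintro _ ⟨t, ht, rfl⟩
    refine ⟨_, ⟨t, ht, rfl⟩, ?_⟩
    rw [hxy t ht, dist_comm]
    exact max_le (hφ t ht) (hψ t ht)

lemma MSq_nonempty (n : ℕ) (hn : 1 ≤ n) : (MSq n).Nonempty := by
  have hs : Sections n 0 1 (fun _ => (0 : ℝ)) := by
    refine ⟨1, hn, fun i => if i = 0 then 0 else 1, by simp, by simp, ?_, ?_⟩
    · intro i hi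
      have : i = 0 := by omega
      subst this
      simp
    · intro i _
      left
      exact fun _ _ _ _ _ => le_rfl
  exact ⟨_, fun _ => 0, fun _ => 0, continuousOn_const, continuousOn_const, hs, hs, rfl⟩

lemma bddBelow_err (n : ℕ) (F : Set (ℝ × ℝ)) :
    BddBelow ((fun γ => Metric.hausdorffDist F γ) '' MSq n) := by
  refine ⟨0, ?_⟩
  rintro _ ⟨γ, -, rfl⟩
  exact Metric.hausdorffDist_nonneg

lemma errorOf_le {F : Set (ℝ × ℝ)} (hF : F ∈ Gamma1) (n : ℕ) (hn : 1 ≤ n) :
    errorOf n F ≤ 1 / (2 * (n : ℝ)) := by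
  apply le_of_forall_pos_le_add
  intro δ hδ
  obtain ⟨γ, hγ, hd⟩ := exists_approx hF n hn hδ
  exact (csInf_le (bddBelow_err n F) ⟨γ, hγ, rfl⟩).trans hd

lemma errorClass_bounds (n : ℕ) (hn : 1 ≤ n) :
    1 / (3 * (n : ℝ) + 10) ≤ errorClass n ∧ errorClass n ≤ 1 / (2 * (n : ℝ)) := by
  obtain ⟨F, hF, hhard⟩ := exists_hard n
  have hbdd : BddAbove (errorOf n '' Gamma1) := by
    refine ⟨1 / (2 * (n : ℝ)), ?_⟩
    rintro _ ⟨G, hG, rfl⟩
    exact errorOf_le hG n hn
  constructor
  · refine le_trans ?_ (le_csSup hbdd ⟨F, hF, rfl⟩)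
    apply le_csInf ((MSq_nonempty n hn).image _)
    rintro _ ⟨γ, hγ, rfl⟩
    exact hhard γ hγ
  · apply csSup_le (⟨_, ⟨F, hF, rfl⟩⟩ : (errorOf n '' Gamma1).Nonempty)
    rintro _ ⟨G, hG, rfl⟩
    exact errorOf_le hG n hn

/-- **Main result**: `1/(3n+10) ≤ E(M_n²;Γ₁) ≤ 1/(2n)` for all `n ≥ 1`, and `1/3 ≤ c₆ ≤ 1/2`. -/
theorem result :
    (∀ n : ℕ, 1 ≤ n → 1 / (3 * (n : ℝ) + 10) ≤ errorClass n ∧ errorClass n ≤ 1 / (2 * (n : ℝ))) ∧
    1 / 3 ≤ c6 ∧ c6 ≤ 1 / 2 := by
  have hup : ∀ᶠ n : ℕ in atTop, (n : ℝ) * errorClass n ≤ 1 / 2 := by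
    filter_upwards [eventually_ge_atTop 1] with n hn
    have h1 := (errorClass_bounds n hn).2
    have h2 : (0 : ℝ) < n := by exact_mod_cast hn
    calc (n : ℝ) * errorClass n ≤ n * (1 / (2 * (n : ℝ))) := by gcongr
      _ = 1 / 2 := by field_simp
  have hlo : ∀ᶠ n : ℕ in atTop, (n : ℝ) * (1 / (3 * (n : ℝ) + 10)) ≤ (n : ℝ) * errorClass n := by
    filter_upwards [eventually_ge_atTop 1] with n hn
    have h1 := (errorClass_bounds n hn).1
    gcongr
  have hlo0 : ∀ᶠ n : ℕ in atTop, (0 : ℝ) ≤ (n : ℝ) * errorClass n := by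
    filter_upwards [hlo] with n hn
    refine le_trans ?_ hn
    positivity
  have hbd : IsBoundedUnder (· ≤ ·) atTop (fun n : ℕ => (n : ℝ) * errorClass n) := ⟨1 / 2, by
    simpa using hup⟩
  have hbd' : IsBoundedUnder (· ≥ ·) atTop (fun n : ℕ => (n : ℝ) * errorClass n) := ⟨0, by
    simpa using hlo0⟩
  refine ⟨errorClass_bounds, ?_, ?_⟩
  · apply le_limsup_of_le hbd
    intro b hb
    have hlim : Tendsto (fun n : ℕ => (n : ℝ) * (1 / (3 * (n : ℝ) + 10))) atTop (𝓝 (1 / 3)) := by
      have h1 : Tendsto (fun n : ℕ => 1 / (3 + 10 * (1 / (n : ℝ)))) atTop (𝓝 (1 / (3 + 10 * 0))) := by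
        apply Tendsto.div tendsto_const_nhds _ (by norm_num)
        exact tendsto_const_nhds.add (tendsto_one_div_atTop_nhds_zero_nat.const_mul 10)
      simp only [mul_zero, add_zero] at h1
      refine h1.congr' ?_
      filter_upwards [eventually_ge_atTop 1] with n hn
      have h2 : (0 : ℝ) < n := by exact_mod_cast hn
      field_simp
    refine le_of_tendsto hlim ?_
    filter_upwards [hb, hlo] with n h1 h2
    exact h2.trans h1
  · exact limsup_le_of_le hbd'.isCoboundedUnder_le hup

end Pool.Agent.Results.MP_04143b_an.TwoSidedBound
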